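import Pool.Agent.Lib.MP_437bdf_an.Main

namespace Pool.Agent.Results.MP_437bdf_an.ExteriorStarUniqueness

open Pool.Agent.Lib.MP_437bdf_an

/-- For every positive reaction and every exterior-star domain there is exactly one positive
bounded solution. -/
theorem result (d : ℕ) (hd : 1 ≤ d) (γ : ℝ) (hγ : γ ∈ Set.Ioc (0 : ℝ) 1) (f : ℝ → ℝ)
    (hf : IsPositiveReaction γ f) (Ω : Set (EuclideanSpace ℝ (Fin d)))
    (hΩ : IsUniformDomain γ Ω) (hstar : IsExteriorStar Ω) :
    ∃ u : EuclideanSpace ℝ (Fin d) → ℝ, IsSolution f Ω u ∧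
      ∀ v : EuclideanSpace ℝ (Fin d) → ℝ, IsSolution f Ω v → Set.EqOn v u (closure Ω) :=
  exists_unique_solution hd hf hΩ hstar

end Pool.Agent.Results.MP_437bdf_an.ExteriorStarUniqueness
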